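import Mathlib


namespace Pool.Agent.Results.MP_68720f_al.NotAdmissible

/-- Underlying space of the Cayley-Dickson algebra `A_(k+1)`: `CD R 0 = A_1 = R + R u`,
and `CD R (k+1) = CD R k + (CD R k) v`. -/
def CD (R : Type) : ℕ → Type
  | 0 => R × R
  | k + 1 => CD R k × CD R k

instance instAdd (R : Type) [AddCommGroup R] : ∀ k, AddCommGroup (CD R k)
  | 0 => inferInstanceAs (AddCommGroup (R × R))
  | k + 1 => letI := instAdd R k; inferInstanceAs (AddCommGroup (CD R k × CD R k))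

instance instMod (S R : Type) [Semiring S] [AddCommGroup R] [Module S R] :
    ∀ k, Module S (CD R k)
  | 0 => inferInstanceAs (Module S (R × R))
  | k + 1 => letI := instMod S R k; inferInstanceAs (Module S (CD R k × CD R k))

/-- The involution: `a + b u ↦ a + b (1 - u)` on `A_1`, and `a + b v ↦ conj a - b v`. -/
def conj {R : Type} [CommRing R] : ∀ {k}, CD R k → CD R k
  | 0, x => ((x.1 + x.2, -x.2) : R × R)
  | _ + 1, x => (conj x.1, -x.2)

/-- The product: `u * u = u + α` on `A_1`, and the doubling formula with parameter `γ (k+2)`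
on `A_(k+2)`. -/
def mul {R : Type} [CommRing R] (α : R) (γ : ℕ → R) : ∀ {k}, CD R k → CD R k → CD R k
  | 0, x, y => ((x.1 * y.1 + α * (x.2 * y.2), x.1 * y.2 + x.2 * y.1 + x.2 * y.2) : R × R)
  | k + 1, x, y => (mul α γ x.1 y.1 + γ (k + 2) • mul α γ (conj y.2) x.2,
      mul α γ y.2 x.1 + mul α γ x.2 (conj y.1))

section General

variable (F : Type) [Field F] {A : Type} [AddCommGroup A] [Module F A]

/-- Value of a nonassociative monomial under the product `μ`. -/
def evalMon {A : Type} (μ : A → A → A) (ρ : ℕ → A) : FreeMagma ℕ → A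
  | .of i => ρ i
  | .mul p q => μ (evalMon μ ρ p) (evalMon μ ρ q)

/-- The nonassociative polynomial `f` is an identity of `(A, μ)`. -/
def IsIdentity (μ : A → A → A) (f : FreeMagma ℕ →₀ F) : Prop :=
  ∀ ρ : ℕ → A, (f.sum fun m c => c • evalMon μ ρ m) = 0

/-- Simple algebra: nonzero product, and the only two-sided ideals are `0` and `A`. -/
def IsSimple (μ : A → A → A) : Prop :=
  (∃ x y, μ x y ≠ 0) ∧
    ∀ I : Submodule F A, (∀ x ∈ I, ∀ y, μ x y ∈ I ∧ μ y x ∈ I) → I = ⊥ ∨ I = ⊤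

/-- The subalgebra generated by `s`. -/
def gen (μ : A → A → A) (s : Set A) : Submodule F A :=
  sInf {C : Submodule F A | s ⊆ C ∧ ∀ x ∈ C, ∀ y ∈ C, μ x y ∈ C}

/-- Locally nilpotent: for every finitely generated subalgebra `C` there is `m` such that
all products of `m` elements of `C`, in every bracketing, vanish. -/
def LocNil (μ : A → A → A) : Prop :=
  ∀ s : Finset A, ∃ m : ℕ, 1 ≤ m ∧ ∀ (w : FreeMagma ℕ) (ρ : ℕ → A), w.length = m →
    (∀ i, ρ i ∈ gen F μ (s : Set A)) → evalMon μ ρ w = 0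

end General

/-! ### Basic lemmas -/

section Basic

variable {R : Type} [CommRing R]

@[ext] lemma ext0 {x y : CD R 0} (h1 : x.1 = y.1) (h2 : x.2 = y.2) : x = y := Prod.ext h1 h2
@[ext] lemma extS {k} {x y : CD R (k + 1)} (h1 : x.1 = y.1) (h2 : x.2 = y.2) : x = y :=
  Prod.ext h1 h2

@[simp] lemma add0_1 (x y : CD R 0) : (x + y).1 = x.1 + y.1 := rfl
@[simp] lemma add0_2 (x y : CD R 0) : (x + y).2 = x.2 + y.2 := rfl
@[simp] lemma addS_1 {k} (x y : CD R (k + 1)) : (x + y).1 = x.1 + y.1 := rfl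
@[simp] lemma addS_2 {k} (x y : CD R (k + 1)) : (x + y).2 = x.2 + y.2 := rfl
@[simp] lemma sub0_1 (x y : CD R 0) : (x - y).1 = x.1 - y.1 := rfl
@[simp] lemma sub0_2 (x y : CD R 0) : (x - y).2 = x.2 - y.2 := rfl
@[simp] lemma subS_1 {k} (x y : CD R (k + 1)) : (x - y).1 = x.1 - y.1 := rfl
@[simp] lemma subS_2 {k} (x y : CD R (k + 1)) : (x - y).2 = x.2 - y.2 := rfl
@[simp] lemma neg0_1 (x : CD R 0) : (-x).1 = -x.1 := rfl
@[simp] lemma neg0_2 (x : CD R 0) : (-x).2 = -x.2 := rfl
@[simp] lemma negS_1 {k} (x : CD R (k + 1)) : (-x).1 = -x.1 := rfl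
@[simp] lemma negS_2 {k} (x : CD R (k + 1)) : (-x).2 = -x.2 := rfl
@[simp] lemma zero0_1 : (0 : CD R 0).1 = 0 := rfl
@[simp] lemma zero0_2 : (0 : CD R 0).2 = 0 := rfl
@[simp] lemma zeroS_1 {k} : (0 : CD R (k + 1)).1 = 0 := rfl
@[simp] lemma zeroS_2 {k} : (0 : CD R (k + 1)).2 = 0 := rfl
@[simp] lemma smul0_1 {S : Type} [Semiring S] [Module S R] (c : S) (x : CD R 0) :
    (c • x).1 = c • x.1 := rfl
@[simp] lemma smul0_2 {S : Type} [Semiring S] [Module S R] (c : S) (x : CD R 0) :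
    (c • x).2 = c • x.2 := rfl
@[simp] lemma smulS_1 {S : Type} [Semiring S] [Module S R] {k} (c : S) (x : CD R (k + 1)) :
    (c • x).1 = c • x.1 := rfl
@[simp] lemma smulS_2 {S : Type} [Semiring S] [Module S R] {k} (c : S) (x : CD R (k + 1)) :
    (c • x).2 = c • x.2 := rfl
@[simp] lemma conj0_1 (x : CD R 0) : (conj x).1 = x.1 + x.2 := rfl
@[simp] lemma conj0_2 (x : CD R 0) : (conj x).2 = -x.2 := rfl
@[simp] lemma conjS_1 {k} (x : CD R (k + 1)) : (conj x).1 = conj x.1 := rfl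
@[simp] lemma conjS_2 {k} (x : CD R (k + 1)) : (conj x).2 = -x.2 := rfl

variable (α : R) (γ : ℕ → R)

@[simp] lemma mul0_1 (x y : CD R 0) : (mul α γ x y).1 = x.1 * y.1 + α * (x.2 * y.2) := rfl
@[simp] lemma mul0_2 (x y : CD R 0) :
    (mul α γ x y).2 = x.1 * y.2 + x.2 * y.1 + x.2 * y.2 := rfl
@[simp] lemma mulS_1 {k} (x y : CD R (k + 1)) :
    (mul α γ x y).1 = mul α γ x.1 y.1 + γ (k + 2) • mul α γ (conj y.2) x.2 := rfl
@[simp] lemma mulS_2 {k} (x y : CD R (k + 1)) :
    (mul α γ x y).2 = mul α γ y.2 x.1 + mul α γ x.2 (conj y.1) := rfl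

def mk0 (a b : R) : CD R 0 := (a, b)
def mkS {k} (a b : CD R k) : CD R (k + 1) := (a, b)
@[simp] lemma mk0_1 (a b : R) : (mk0 a b).1 = a := rfl
@[simp] lemma mk0_2 (a b : R) : (mk0 a b).2 = b := rfl
@[simp] lemma mkS_1 {k} (a b : CD R k) : (mkS a b).1 = a := rfl
@[simp] lemma mkS_2 {k} (a b : CD R k) : (mkS a b).2 = b := rfl

def one : ∀ k, CD R k
  | 0 => mk0 1 0
  | k + 1 => mkS (one k) 0

def tr : ∀ {k}, CD R k → R
  | 0, x => 2 * x.1 + x.2
  | _ + 1, x => tr x.1

def N : ∀ {k}, CD R k → CD R k → R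
  | 0, x, y => 2 * x.1 * y.1 + x.1 * y.2 + x.2 * y.1 - 2 * α * x.2 * y.2
  | k + 1, x, y => N x.1 y.1 - γ (k + 2) * N x.2 y.2

lemma conj_eq : ∀ {k} (x : CD R k), conj x = tr x • one k - x
  | 0, x => by ext <;> simp [tr, one] <;> ring
  | k + 1, x => by ext <;> simp [tr, one, conj_eq x.1]

lemma tr_add : ∀ {k} (x y : CD R k), tr (x + y) = tr x + tr y
  | 0, x, y => by simp [tr]; ring
  | k + 1, x, y => by simp [tr, tr_add x.1 y.1]

lemma tr_smul : ∀ {k} (c : R) (x : CD R k), tr (c • x) = c * tr x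
  | 0, c, x => by simp [tr]; ring
  | k + 1, c, x => by simp [tr, tr_smul c x.1]

lemma conj_add {k} (x y : CD R k) : conj (x + y) = conj x + conj y := by
  simp only [conj_eq, tr_add, add_smul]; abel

lemma conj_smul {k} (c : R) (x : CD R k) : conj (c • x) = c • conj x := by
  simp only [conj_eq, tr_smul, smul_sub, mul_smul]

@[simp] lemma conj_zero {k} : conj (0 : CD R k) = 0 := by
  simpa using conj_smul (0 : R) (0 : CD R k)

@[simp] lemma tr_zero {k} : tr (0 : CD R k) = 0 := by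
  simpa using tr_smul (0 : R) (0 : CD R k)

@[simp] lemma conj_one : ∀ {k}, conj (one k : CD R k) = one k
  | 0 => by ext <;> simp [one]
  | k + 1 => by ext <;> simp [one, conj_one (k := k)]

lemma mul_add' : ∀ {k} (x y z : CD R k), mul α γ x (y + z) = mul α γ x y + mul α γ x z ∧
    mul α γ (y + z) x = mul α γ y x + mul α γ z x
  | 0, x, y, z => by constructor <;> ext <;> simp <;> ring
  | k + 1, x, y, z => by
    constructor <;> ext <;>
      simp only [mulS_1, mulS_2, addS_1, addS_2, conj_add, (mul_add' (k := k) _ _ _).1,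
        (mul_add' (k := k) _ _ _).2, smul_add] <;> abel

lemma mul_smul' : ∀ {k} (c : R) (x y : CD R k), mul α γ x (c • y) = c • mul α γ x y ∧
    mul α γ (c • y) x = c • mul α γ y x
  | 0, c, x, y => by constructor <;> ext <;> simp <;> ring
  | k + 1, c, x, y => by
    constructor <;> ext <;>
      simp only [mulS_1, mulS_2, smulS_1, smulS_2, conj_smul, (mul_smul' (k := k) _ _ _).1,
        (mul_smul' (k := k) _ _ _).2, smul_add, smul_comm c (γ (k + 2))]

@[simp] lemma mul_zero' {k} (x : CD R k) : mul α γ x 0 = 0 := by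
  simpa using (mul_smul' α γ 0 x 0).1

@[simp] lemma zero_mul' {k} (x : CD R k) : mul α γ 0 x = 0 := by
  simpa using (mul_smul' α γ 0 x 0).2

lemma mul_sub' {k} (x y z : CD R k) : mul α γ x (y - z) = mul α γ x y - mul α γ x z ∧
    mul α γ (y - z) x = mul α γ y x - mul α γ z x := by
  have h : y - z = y + (-1 : R) • z := by simp [sub_eq_add_neg]
  rw [h, (mul_add' α γ _ _ _).1, (mul_add' α γ _ _ _).2, (mul_smul' α γ _ _ _).1,
    (mul_smul' α γ _ _ _).2]
  simp [sub_eq_add_neg]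

lemma mul_one' : ∀ {k} (x : CD R k), mul α γ x (one k) = x ∧ mul α γ (one k) x = x
  | 0, x => by constructor <;> ext <;> simp [one]
  | k + 1, x => by
    constructor <;> ext <;> simp [one, (mul_one' (k := k) _).1, (mul_one' (k := k) _).2]

lemma N_symm : ∀ {k} (x y : CD R k), N α γ x y = N α γ y x
  | 0, x, y => by simp [N]; ring
  | k + 1, x, y => by simp [N, N_symm x.1 y.1, N_symm x.2 y.2]

lemma jordan : ∀ {k} (x y : CD R k),
    mul α γ x y + mul α γ y x = tr x • y + tr y • x - N α γ x y • one k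
  | 0, x, y => by ext <;> simp [tr, N, one] <;> ring
  | k + 1, x, y => by
    have h1 := jordan x.1 y.1
    have h2 := jordan x.2 y.2
    ext
    · simp only [mulS_1, addS_1, subS_1, smulS_1, tr, N, one, mkS_1, conj_eq,
        (mul_sub' α γ _ _ _).2, (mul_smul' α γ _ _ _).2, (mul_one' α γ _).2]
      linear_combination (norm := module) h1 - γ (k + 2) • h2
    · simp only [mulS_2, addS_2, subS_2, smulS_2, tr, N, one, mkS_2, conj_eq,
        (mul_sub' α γ _ _ _).1, (mul_smul' α γ _ _ _).1, (mul_one' α γ _).1]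
      module

@[simp] lemma N_zero : ∀ {k} (x : CD R k), N α γ 0 x = 0
  | 0, x => by simp [N]
  | k + 1, x => by simp [N, N_zero x.1, N_zero x.2]

end Basic

section Simple

variable {F : Type} [Field F] {α : F} {γ : ℕ → F}

lemma N_nondeg (hα : 1 + 4 * α ≠ 0) (hγ : ∀ j, γ j ≠ 0) :
    ∀ {k} (x : CD F k), (∀ c, N α γ c x = 0) → x = 0
  | 0, x, h => by
    have h1 := h (mk0 1 0)
    have h2 := h (mk0 0 1)
    simp [N] at h1 h2
    have h3 : (1 + 4 * α) * x.1 = 0 := by linear_combination h2 + 2 * α * h1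
    have h4 : x.1 = 0 := (mul_eq_zero.1 h3).resolve_left hα
    ext
    · simpa using h4
    · simp only [zero0_2]; linear_combination h1 - 2 * h4
  | k + 1, x, h => by
    ext
    · exact N_nondeg hα hγ x.1 fun c => by simpa [N] using h (mkS c 0)
    · exact N_nondeg hα hγ x.2 fun c => by simpa [N, hγ] using h (mkS 0 c)

lemma exists_conj_ne : ∀ k, ∃ w : CD F k, conj w - w ≠ 0
  | 0 => ⟨mk0 0 1, fun h => by simpa using congrArg Prod.fst h⟩
  | k + 1 => by
    obtain ⟨w, hw⟩ := exists_conj_ne k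
    exact ⟨mkS w 0, fun h => hw (congrArg Prod.fst h)⟩

lemma one_ne : ∀ k, (one k : CD F k) ≠ 0
  | 0 => fun h => by simpa [one] using congrArg Prod.fst h
  | k + 1 => fun h => one_ne k (congrArg Prod.fst h)

lemma simple (hα : 1 + 4 * α ≠ 0) (hγ : ∀ j, γ j ≠ 0) (k : ℕ) :
    IsSimple F (mul α γ : CD F (k + 1) → _ → _) := by
  refine ⟨⟨one _, one _, by rw [(mul_one' α γ _).1]; exact one_ne _⟩, fun I hI => ?_⟩
  have key : ∀ x ∈ I, ∀ c, tr x • c - N α γ x c • one (k + 1) ∈ I := by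
    intro x hx c
    have h := I.sub_mem (I.add_mem (hI x hx c).1 (hI x hx c).2) (I.smul_mem (tr c) hx)
    rw [jordan] at h
    convert h using 1
    abel
  have h0 : ∀ x ∈ I, x ≠ 0 → tr x = 0 → I = ⊤ := by
    intro x hx hx0 ht
    have : ¬ ∀ c, N α γ c x = 0 := fun h => hx0 (N_nondeg hα hγ x h)
    push Not at this
    obtain ⟨c, hc⟩ := this
    have h := key x hx c
    rw [ht, zero_smul, zero_sub, I.neg_mem_iff, N_symm, I.smul_mem_iff hc] at h
    rw [eq_top_iff]
    intro y _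
    have := (hI _ h y).1
    rwa [(mul_one' α γ _).2] at this
  by_cases hb : I = ⊥
  · exact Or.inl hb
  right
  obtain ⟨x, hx, hx0⟩ := Submodule.exists_mem_ne_zero_of_ne_bot hb
  by_cases ht : tr x = 0
  · exact h0 x hx hx0 ht
  obtain ⟨w, hw⟩ := exists_conj_ne (F := F) k
  have h1 := key x hx (mkS 0 (one k))
  have h2 := I.sub_mem (hI _ h1 (mkS w 0)).1 (hI _ h1 (mkS w 0)).2
  have h3 : mul α γ (tr x • mkS 0 (one k) - N α γ x (mkS 0 (one k)) • one (k + 1)) (mkS w 0) -
      mul α γ (mkS w 0) (tr x • mkS 0 (one k) - N α γ x (mkS 0 (one k)) • one (k + 1)) =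
      tr x • mkS 0 (conj w - w) := by
    rw [(mul_sub' α γ _ _ _).1, (mul_sub' α γ _ _ _).2]
    simp only [(mul_smul' α γ _ _ _).1, (mul_smul' α γ _ _ _).2, (mul_one' α γ _).1,
      (mul_one' α γ _).2]
    ext <;> simp [(mul_one' α γ _).1, (mul_one' α γ _).2, smul_sub]
  rw [h3, I.smul_mem_iff ht] at h2
  exact h0 _ h2 (fun h => hw (congrArg Prod.snd h)) (by simp [tr])

end Simple

section Functorial

variable {F : Type} [Field F]

lemma eval_map {A B : Type} [AddCommGroup A] [Module F A] [AddCommGroup B] [Module F B]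
    (μ : A → A → A) (ν : B → B → B) (ψ : A →ₗ[F] B) (h : ∀ x y, ψ (μ x y) = ν (ψ x) (ψ y))
    (ρ : ℕ → A) (f : FreeMagma ℕ →₀ F) :
    ψ (f.sum fun m c => c • evalMon μ ρ m) = f.sum fun m c => c • evalMon ν (ψ ∘ ρ) m := by
  have hm : ∀ m, ψ (evalMon μ ρ m) = evalMon ν (ψ ∘ ρ) m := by
    intro m
    induction m with
    | ih1 i => rfl
    | ih2 p q hp hq =>
      change ψ (μ _ _) = ν _ _
      rw [h, hp, hq]
  simp only [Finsupp.sum, map_sum, map_smul, hm]

variable {R S : Type} [CommRing R] [CommRing S] [Algebra F R] [Algebra F S]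

def cmap (φ : R →ₐ[F] S) : ∀ k, CD R k →ₗ[F] CD S k
  | 0 => φ.toLinearMap.prodMap φ.toLinearMap
  | k + 1 => (cmap φ k).prodMap (cmap φ k)

@[simp] lemma cmap0_1 (φ : R →ₐ[F] S) (x : CD R 0) : (cmap φ 0 x).1 = φ x.1 := rfl
@[simp] lemma cmap0_2 (φ : R →ₐ[F] S) (x : CD R 0) : (cmap φ 0 x).2 = φ x.2 := rfl
@[simp] lemma cmapS_1 (φ : R →ₐ[F] S) {k} (x : CD R (k + 1)) :
    (cmap φ (k + 1) x).1 = cmap φ k x.1 := rfl
@[simp] lemma cmapS_2 (φ : R →ₐ[F] S) {k} (x : CD R (k + 1)) :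
    (cmap φ (k + 1) x).2 = cmap φ k x.2 := rfl

lemma cmap_smul (φ : R →ₐ[F] S) : ∀ {k} (c : R) (x : CD R k),
    cmap φ k (c • x) = φ c • cmap φ k x
  | 0, c, x => by ext <;> simp
  | k + 1, c, x => by ext <;> simp [cmap_smul φ (k := k) c]

lemma cmap_conj (φ : R →ₐ[F] S) : ∀ {k} (x : CD R k), cmap φ k (conj x) = conj (cmap φ k x)
  | 0, x => by ext <;> simp
  | k + 1, x => by ext <;> simp [cmap_conj φ x.1]

lemma cmap_mul (φ : R →ₐ[F] S) (α : F) (γ : ℕ → F) : ∀ {k} (x y : CD R k),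
    cmap φ k (mul (algebraMap F R α) (fun j => algebraMap F R (γ j)) x y) =
      mul (algebraMap F S α) (fun j => algebraMap F S (γ j)) (cmap φ k x) (cmap φ k y)
  | 0, x, y => by ext <;> simp
  | k + 1, x, y => by
    ext <;> simp only [mulS_1, mulS_2, cmapS_1, cmapS_2, map_add, cmap_smul, cmap_mul φ α γ (k := k),
      cmap_conj, AlgHom.commutes]

lemma smul_alg : ∀ {k} (c : F) (x : CD S k), c • x = algebraMap F S c • x
  | 0, c, x => by ext <;> simp [Algebra.smul_def]
  | k + 1, c, x => by ext <;> simp only [smulS_1, smulS_2, smul_alg (k := k) c]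

def generic {R : Type} : ∀ k, (List Bool → R) → CD R k
  | 0, g => ((g [false], g [true]) : R × R)
  | k + 1, g => (generic k (fun l => g (false :: l)), generic k (fun l => g (true :: l)))

lemma cmap_generic (φ : R →ₐ[F] S) : ∀ k (g : List Bool → R),
    cmap φ k (generic k g) = generic k (fun l => φ (g l))
  | 0, _ => rfl
  | k + 1, _ => Prod.ext (cmap_generic φ k _) (cmap_generic φ k _)

lemma generic_surj {R : Type} [Zero R] : ∀ k (x : CD R k), ∃ g, generic k g = x
  | 0, x => ⟨fun l => if l = [false] then x.1 else x.2, rfl⟩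
  | k + 1, x => by
    obtain ⟨g1, h1⟩ := generic_surj k x.1
    obtain ⟨g2, h2⟩ := generic_surj k x.2
    exact ⟨fun l => match l with
      | [] => 0
      | false :: l => g1 l
      | true :: l => g2 l, Prod.ext h1 h2⟩

lemma zero_of_eval [Infinite F] {σ : Type} : ∀ k (z : CD (MvPolynomial σ F) k),
    (∀ p : σ → F, cmap (MvPolynomial.aeval p) k z = 0) → z = 0
  | 0, z, h => by
    ext1
    · exact MvPolynomial.funext fun p => by simpa using congrArg Prod.fst (h p)
    · exact MvPolynomial.funext fun p => by simpa using congrArg Prod.snd (h p)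
  | k + 1, z, h => by
    ext1
    · exact zero_of_eval k z.1 fun p => congrArg Prod.fst (h p)
    · exact zero_of_eval k z.2 fun p => congrArg Prod.snd (h p)

lemma identity_ext [Infinite F] (α : F) (γ : ℕ → F) (k : ℕ) (f : FreeMagma ℕ →₀ F)
    (hf : IsIdentity F (mul α γ : CD F k → _ → _) f) :
    IsIdentity F (mul (algebraMap F S α) (fun j => algebraMap F S (γ j)) : CD S k → _ → _) f := by
  intro ρ
  let P := MvPolynomial (ℕ × List Bool) F
  let ρ0 : ℕ → CD P k := fun i => generic k (fun l => MvPolynomial.X (i, l))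
  have hZ : (f.sum fun m c =>
      c • evalMon (mul (algebraMap F P α) (fun j => algebraMap F P (γ j))) ρ0 m) = 0 := by
    refine zero_of_eval k _ fun p => ?_
    rw [eval_map _ _ _ (cmap_mul _ α γ)]
    exact hf _
  choose g hg using fun i => generic_surj k (ρ i)
  have := eval_map _ _ _ (cmap_mul (MvPolynomial.aeval (R := F) fun s : ℕ × List Bool => g s.1 s.2)
    α γ (k := k)) ρ0 f
  rw [hZ, map_zero] at this
  rw [this]
  congr
  funext m c
  congr
  funext i
  simp [ρ0, cmap_generic, hg]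

end Functorial

section Example

variable {K : Type} [Field K] (α : K) (γ : ℕ → K)

def Pair {k} (x y : CD K k) : Prop :=
  mul α γ x x = 0 ∧ mul α γ y y = 0 ∧ mul α γ x y = y ∧ mul α γ y x = -y ∧ y ≠ 0

lemma pair_four [IsAlgClosed K] (hα : 1 + 4 * α ≠ 0) (hγ : ∀ j, γ j ≠ 0) :
    ∃ x y : CD K 3, Pair α γ x y := by
  obtain ⟨s, hs⟩ : ∃ s : K, s ^ 2 = s + α := by
    obtain ⟨s, hs⟩ := IsAlgClosed.exists_root (Polynomial.X ^ 2 - Polynomial.X - Polynomial.C α)
      (by
        have : (Polynomial.X ^ 2 - Polynomial.X - Polynomial.C α : Polynomial K).degree = 2 := by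
          compute_degree!
        rw [this]; decide)
    refine ⟨s, ?_⟩
    simp at hs
    linear_combination hs
  have hs1 : 1 - 2 * s ≠ 0 := fun h => hα (by linear_combination (1 - 2 * s) * h - 4 * hs)
  have ht : ∀ j, ∃ t : K, t ≠ 0 ∧ γ j = (t ^ 2)⁻¹ := by
    intro j
    obtain ⟨t, ht⟩ := IsAlgClosed.exists_pow_nat_eq (γ j)⁻¹ (n := 2) (by norm_num)
    refine ⟨t, ?_, by rw [ht, inv_inv]⟩
    rintro rfl
    exact inv_ne_zero (hγ j) (by simpa using ht.symm)
  obtain ⟨t2, h2, e2⟩ := ht 2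
  obtain ⟨t3, h3, e3⟩ := ht 3
  obtain ⟨t4, h4, e4⟩ := ht 4
  have hα' : α = s ^ 2 - s := by linear_combination -hs
  obtain ⟨q, hq⟩ : ∃ q : K, q = (1 - 2 * s)⁻¹ := ⟨_, rfl⟩
  have hq0 : q ≠ 0 := hq ▸ inv_ne_zero hs1
  refine ⟨mkS (mkS (mkS 0 (mk0 (-s * q * t2) (q * t2))) 0) (mkS (mkS (mk0 t4 0) (mk0 (t2 * t4) 0)) 0),
    mkS (mkS 0 (mkS (mk0 (-s * q * t3) (q * t3)) 0))
      (mkS 0 (mkS (mk0 (s * q * t3 * t4) (-q * t3 * t4)) 0)), ?_, ?_, ?_, ?_, ?_⟩
  · ext <;> simp [e2, e3, e4, hα', hq] <;> field_simp <;> first | ring1 | simp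
  · ext <;> simp [e2, e3, e4, hα', hq] <;> field_simp <;> first | ring1 | simp
  · ext <;> simp [e2, e3, e4, hα', hq] <;> field_simp <;> first | ring1 | simp
  · ext <;> simp [e2, e3, e4, hα', hq] <;> field_simp <;> first | ring1 | simp
  · intro h
    have := congrArg (fun z : CD K 3 => z.1.2.1.2) h
    simp [hq0, h3] at this

lemma pair_ge [IsAlgClosed K] (hα : 1 + 4 * α ≠ 0) (hγ : ∀ j, γ j ≠ 0) (k : ℕ) (hk : 3 ≤ k) :
    ∃ x y : CD K k, Pair α γ x y := by
  induction k, hk using Nat.le_induction with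
  | base => exact pair_four α γ hα hγ
  | succ k _ ih =>
    obtain ⟨x, y, h1, h2, h3, h4, h5⟩ := ih
    refine ⟨mkS x 0, mkS y 0, ?_, ?_, ?_, ?_, fun h => h5 (congrArg Prod.fst h)⟩ <;>
      ext <;> simp [h1, h2, h3, h4]

end Example

/-- The two-dimensional nonabelian Lie algebra. -/
def lie2 (F : Type) [Field F] : (F × F) →ₗ[F] (F × F) →ₗ[F] (F × F) :=
  LinearMap.mk₂ F (fun p q => (0, p.1 * q.2 - p.2 * q.1))
    (fun _ _ _ => by ext <;> simp; ring) (fun _ _ _ => by ext <;> simp; ring)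
    (fun _ _ _ => by ext <;> simp; ring) (fun _ _ _ => by ext <;> simp; ring)

def word : ℕ → FreeMagma ℕ
  | 0 => .of 1
  | m + 1 => .mul (.of 0) (word m)

lemma not_locNil (F : Type) [Field F] : ¬ LocNil F (fun x y => lie2 F x y) := by
  classical
  intro h
  obtain ⟨m, hm, h⟩ := h {(1, 0), (0, 1)}
  obtain ⟨m, rfl⟩ : ∃ m', m = m' + 1 := ⟨m - 1, by omega⟩
  let ρ : ℕ → F × F := fun i => if i = 0 then (1, 0) else (0, 1)
  have hl : ∀ m, (word m).length = m + 1 := by
    intro m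
    induction m with
    | zero => rfl
    | succ m ih =>
      change 1 + (word m).length = _
      omega
  have hv : ∀ m, evalMon (fun x y => lie2 F x y) ρ (word m) = (0, 1) := by
    intro m
    induction m with
    | zero => simp [word, evalMon, ρ]
    | succ m ih =>
      change lie2 F (ρ 0) (evalMon _ ρ (word m)) = _
      rw [ih]
      simp [ρ, lie2]
  have := h (word m) ρ (hl m) (fun i => by
    refine Submodule.mem_sInf.2 fun C hC => hC.1 ?_
    simp only [ρ]
    split_ifs <;> simp)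
  rw [hv] at this
  simpa using congrArg Prod.snd this

theorem result (F : Type) [Field F] [Infinite F] (α : F) (γ : ℕ → F) (hα : 1 + 4 * α ≠ 0)
    (hγ : ∀ j, γ j ≠ 0) (k : ℕ) (hk : 3 ≤ k) :
    IsSimple F (mul α γ : CD F k → CD F k → CD F k) ∧
    ∃ (B : Type) (_ : AddCommGroup B) (_ : Module F B) (μ : B →ₗ[F] B →ₗ[F] B),
      (∀ f, IsIdentity F (mul α γ : CD F k → CD F k → CD F k) f →
        IsIdentity F (fun x y => μ x y) f) ∧
      (∀ x y, μ x y = -μ y x) ∧ (∀ x, μ x x = 0) ∧ ¬ LocNil F (fun x y => μ x y) := by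
  refine ⟨?_, F × F, inferInstance, inferInstance, lie2 F, ?_, ?_, ?_, not_locNil F⟩
  · obtain ⟨j, rfl⟩ : ∃ j, k = j + 1 := ⟨k - 1, by omega⟩
    exact simple hα hγ j
  · intro f hf ρ
    let K := AlgebraicClosure F
    have hinj : Function.Injective (algebraMap F K) := (algebraMap F K).injective
    have hK := identity_ext (S := K) α γ k f hf
    obtain ⟨x, y, h1, h2, h3, h4, h5⟩ := pair_ge (algebraMap F K α)
      (fun j => algebraMap F K (γ j))
      (fun h => hα (hinj (by simpa [map_ofNat] using h)))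
      (fun j h => hγ j (hinj (by simpa using h))) k hk
    let ψ : (F × F) →ₗ[F] CD K k :=
      { toFun := fun p => algebraMap F K p.1 • x + algebraMap F K p.2 • y
        map_add' := fun p q => by simp only [Prod.fst_add, Prod.snd_add, map_add, add_smul]; abel
        map_smul' := fun c p => by
          simp only [Prod.smul_fst, Prod.smul_snd, smul_eq_mul, map_mul, RingHom.id_apply,
            smul_alg (S := K) c, smul_add, mul_smul] }
    have hψ : ∀ p, ψ p = algebraMap F K p.1 • x + algebraMap F K p.2 • y := fun _ => rfl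
    have hmul : ∀ p q, ψ (lie2 F p q) =
        mul (algebraMap F K α) (fun j => algebraMap F K (γ j)) (ψ p) (ψ q) := by
      intro p q
      simp only [hψ, (mul_add' _ _ _ _ _).1, (mul_add' _ _ _ _ _).2, (mul_smul' _ _ _ _ _).1,
        (mul_smul' _ _ _ _ _).2, h1, h2, h3, h4, lie2, LinearMap.mk₂_apply, map_zero, map_sub,
        map_mul]
      module
    have hker : ∀ p, ψ p = 0 → p = 0 := by
      intro p hp
      have e1 := hmul p (0, 1)
      have e2 := hmul (1, 0) p
      rw [hp, zero_mul'] at e1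
      rw [hp, mul_zero'] at e2
      simp [hψ, lie2, h5] at e1 e2
      exact Prod.ext e1 e2
    apply hker
    rw [eval_map _ _ ψ hmul]
    exact hK _
  · intro x y
    ext <;> simp [lie2]
    ring
  · intro x
    ext <;> simp [lie2]
    ring

end Pool.Agent.Results.MP_68720f_al.NotAdmissible
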